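import Pool.Agent.Helper25_CON.PDLem

/-!
Squad CON (helper34): modules G_A and G_H7
-/

noncomputable section

namespace Pool.Agent.CON.H34

open Pool.Agent.CON

variable {M : Type} [AddCommGroup M] {b : M → M → ℤ} {C : Set M} {s : ℤ}

lemma neg_mem (hC : Irr b C s) {α : M} (hα : α ∈ C) : -α ∈ C := by
  have h := hC.refl α hα α hα 2 (hC.norm α hα)
  have e : α - (2 : ℤ) • α = -α := by rw [two_zsmul]; abel
  rwa [e] at h

lemma sub_mem (hb : PD b) (hC : Irr b C s) {α β : M} (hα : α ∈ C) (hβ : β ∈ C)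
    (h : b α β = s) : α - β ∈ C := by
  have h1 := hC.refl β hβ α hα 1 (by rw [hb.symm, h]; ring)
  rwa [one_zsmul] at h1

lemma add_mem (hb : PD b) (hC : Irr b C s) {α β : M} (hα : α ∈ C) (hβ : β ∈ C)
    (h : b α β = -s) : α + β ∈ C := by
  have h1 := hC.refl β hβ α hα (-1) (by rw [hb.symm, h]; ring)
  have e : α - (-1 : ℤ) • β = α + β := by rw [neg_smul, one_zsmul]; abel
  rwa [e] at h1

lemma eq_of_two (hb : PD b) (hC : Irr b C s) {α β : M} (hα : α ∈ C) (hβ : β ∈ C)
    (h : b α β = 2 * s) : α = β := by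
  have h1 : b (α - β) (α - β) = 0 := by
    simp only [hb.sub_left, hb.sub_right, hC.norm α hα, hC.norm β hβ, h, hb.symm β α]
    ring
  have := hb.eq_zero (x := α - β) (by omega)
  exact sub_eq_zero.mp this

lemma eq_neg_of_two (hb : PD b) (hC : Irr b C s) {α β : M} (hα : α ∈ C) (hβ : β ∈ C)
    (h : b α β = -(2 * s)) : α = -β := by
  apply eq_of_two hb hC hα (neg_mem hC hβ)
  rw [hb.neg_right, h]; ring

/-- the product of two roots -/
lemma prod_cases (hb : PD b) (hC : Irr b C s) {α β : M} (hα : α ∈ C) (hβ : β ∈ C) :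
    b α β = 0 ∨ b α β = s ∨ b α β = -s ∨ b α β = 2 * s ∨ b α β = -(2 * s) := by
  obtain ⟨k, hk⟩ := hC.dvd α hα β hβ
  have hs := hC.pos
  have h1 := hb.cs α β
  rw [hC.norm α hα, hC.norm β hβ, hk] at h1
  have h2 : k ^ 2 ≤ 4 := by
    by_contra h
    push Not at h
    have : s ^ 2 * 4 < s ^ 2 * k ^ 2 := by
      apply mul_lt_mul_of_pos_left h (by positivity)
    nlinarith
  have h3 : -2 ≤ k := by nlinarith
  have h4 : k ≤ 2 := by nlinarith
  interval_cases k
  · right; right; right; right; rw [hk]; ring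
  · right; right; left; rw [hk]; ring
  · left; rw [hk]; ring
  · right; left; rw [hk]; ring
  · right; right; right; left; rw [hk]; ring

lemma snoc_frame (hb : PD b) {m : ℕ} {v : Fin m → M} (hv : AFr b C s m v) {β : M} (hβ : β ∈ C)
    (h : ∀ i, b β (v i) = s) : AFr b C s (m + 1) (Fin.snoc v β : Fin (m + 1) → M) := by
  refine ⟨fun i => ?_, fun i j hij => ?_⟩
  · refine Fin.lastCases ?_ (fun i => ?_) i
    · rw [Fin.snoc_last]; exact hβ
    · rw [Fin.snoc_castSucc]; exact hv.1 i
  · revert hij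
    refine Fin.lastCases ?_ (fun i => ?_) i
    · refine Fin.lastCases ?_ (fun j => ?_) j
      · intro h; exact absurd rfl h
      · intro _
        rw [Fin.snoc_last, Fin.snoc_castSucc]
        exact h j
    · refine Fin.lastCases ?_ (fun j => ?_) j
      · intro _
        rw [Fin.snoc_last, Fin.snoc_castSucc, hb.symm]
        exact h i
      · intro hij
        rw [Fin.snoc_castSucc, Fin.snoc_castSucc]
        exact hv.2 i j (fun e => hij (by rw [e]))

/-- the frame of size 3 -/
lemma three_frame (hb : PD b) (hC : Irr b C s) {x y z : M} (hx : x ∈ C) (hy : y ∈ C) (hz : z ∈ C)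
    (hxy : b x y = s) (hxz : b x z = s) (hyz : b y z = s) :
    DFr b C s 3 ![x + y - z, x - y - z, x - y + z] := by
  have hyx : b y x = s := by rw [hb.symm, hxy]
  have hzx : b z x = s := by rw [hb.symm, hxz]
  have hzy : b z y = s := by rw [hb.symm, hyz]
  have nx := hC.norm x hx
  have ny := hC.norm y hy
  have nz := hC.norm z hz
  have m1 : x - z ∈ C := sub_mem hb hC hx hz hxz
  have m2 : y - z ∈ C := sub_mem hb hC hy hz hyz
  have m3 : x - y ∈ C := sub_mem hb hC hx hy hxy
  refine ⟨fun i => ?_, fun i j hij => ?_, fun i j hij => ?_⟩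
  · fin_cases i
    · change b (x + y - z) (x + y - z) = 4 * s
      simp only [hb.add_left, hb.sub_left, hb.add_right, hb.sub_right, *]; ring
    · change b (x - y - z) (x - y - z) = 4 * s
      simp only [hb.add_left, hb.sub_left, hb.add_right, hb.sub_right, *]; ring
    · change b (x - y + z) (x - y + z) = 4 * s
      simp only [hb.add_left, hb.sub_left, hb.add_right, hb.sub_right, *]; ring
  · fin_cases i <;> fin_cases j <;> first | exact absurd rfl hij | skip
    · change b (x + y - z) (x - y - z) = 0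
      simp only [hb.add_left, hb.sub_left, hb.add_right, hb.sub_right, *]; ring
    · change b (x + y - z) (x - y + z) = 0
      simp only [hb.add_left, hb.sub_left, hb.add_right, hb.sub_right, *]; ring
    · change b (x - y - z) (x + y - z) = 0
      simp only [hb.add_left, hb.sub_left, hb.add_right, hb.sub_right, *]; ring
    · change b (x - y - z) (x - y + z) = 0
      simp only [hb.add_left, hb.sub_left, hb.add_right, hb.sub_right, *]; ring
    · change b (x - y + z) (x + y - z) = 0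
      simp only [hb.add_left, hb.sub_left, hb.add_right, hb.sub_right, *]; ring
    · change b (x - y + z) (x - y - z) = 0
      simp only [hb.add_left, hb.sub_left, hb.add_right, hb.sub_right, *]; ring
  · fin_cases i <;> fin_cases j <;> first | exact absurd rfl hij | skip
    · change (∃ w ∈ C, (2 : ℤ) • w = (x + y - z) + (x - y - z)) ∧
        ∃ w ∈ C, (2 : ℤ) • w = (x + y - z) - (x - y - z)
      exact ⟨⟨_, m1, by module⟩, ⟨_, hy, by module⟩⟩
    · change (∃ w ∈ C, (2 : ℤ) • w = (x + y - z) + (x - y + z)) ∧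
        ∃ w ∈ C, (2 : ℤ) • w = (x + y - z) - (x - y + z)
      exact ⟨⟨_, hx, by module⟩, ⟨_, m2, by module⟩⟩
    · change (∃ w ∈ C, (2 : ℤ) • w = (x - y - z) + (x + y - z)) ∧
        ∃ w ∈ C, (2 : ℤ) • w = (x - y - z) - (x + y - z)
      exact ⟨⟨_, m1, by module⟩, ⟨_, neg_mem hC hy, by module⟩⟩
    · change (∃ w ∈ C, (2 : ℤ) • w = (x - y - z) + (x - y + z)) ∧
        ∃ w ∈ C, (2 : ℤ) • w = (x - y - z) - (x - y + z)
      exact ⟨⟨_, m3, by module⟩, ⟨_, neg_mem hC hz, by module⟩⟩
    · change (∃ w ∈ C, (2 : ℤ) • w = (x - y + z) + (x + y - z)) ∧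
        ∃ w ∈ C, (2 : ℤ) • w = (x - y + z) - (x + y - z)
      exact ⟨⟨_, hx, by module⟩, ⟨_, neg_mem hC m2, by module⟩⟩
    · change (∃ w ∈ C, (2 : ℤ) • w = (x - y + z) + (x - y - z)) ∧
        ∃ w ∈ C, (2 : ℤ) • w = (x - y + z) - (x - y - z)
      exact ⟨⟨_, m3, by module⟩, ⟨_, hz, by module⟩⟩

/-- no root has all its products with the maximal frame equal to 0 or s, not all 0 -/
lemma no_mixed (hE : G_EXT) (hb : PD b) (hC : Irr b C s) {m : ℕ} {v : Fin m → M}
    (hv : AFr b C s m v) (hF : ∀ F : Fin 4 → M, ¬ DFr b C s 4 F)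
    (hmax : ∀ v' : Fin (m + 1) → M, ¬ AFr b C s (m + 1) v') {β : M} (hβ : β ∈ C)
    (h : ∀ i, b β (v i) = 0 ∨ b β (v i) = s) (i0 : Fin m) (h0 : b β (v i0) = s) : False := by
  by_cases hall : ∀ i, b β (v i) = s
  · exact hmax _ (snoc_frame hb hv hβ hall)
  push Not at hall
  obtain ⟨j, hj⟩ := hall
  have hj0 : b β (v j) = 0 := (h j).resolve_right hj
  have hji : j ≠ i0 := by
    rintro rfl
    exact hj h0
  by_cases h2 : ∃ i1, i1 ≠ i0 ∧ b β (v i1) = s
  · obtain ⟨i1, hi1, h1⟩ := h2
    have hji1 : j ≠ i1 := by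
      rintro rfl
      exact hj h1
    have hf := three_frame hb hC (hv.1 i0) (hv.1 i1) (hv.1 j) (hv.2 _ _ hi1.symm)
      (hv.2 _ _ hji.symm) (hv.2 _ _ hji1.symm)
    obtain ⟨F', hF'⟩ := hE M b C s 3 _ β 0 hb hC (by norm_num) hf hβ (Or.inl (by
      change b β (v i0 + v i1 - v j) = 2 * s
      rw [hb.sub_right, hb.add_right, h0, h1, hj0]; ring)) (by
      intro l hl
      fin_cases l
      · exact absurd rfl hl
      · change b β (v i0 - v i1 - v j) = 0
        rw [hb.sub_right, hb.sub_right, h0, h1, hj0]; ring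
      · change b β (v i0 - v i1 + v j) = 0
        rw [hb.add_right, hb.sub_right, h0, h1, hj0]; ring)
    exact hF F' hF'
  · push Not at h2
    have hz : ∀ i, i ≠ i0 → b β (v i) = 0 := fun i hi => (h i).resolve_right (h2 i hi)
    have hmem : v i0 - β ∈ C := sub_mem hb hC (hv.1 i0) hβ (by rw [hb.symm, h0])
    refine hmax _ (snoc_frame hb hv hmem fun i => ?_)
    rw [hb.sub_left]
    rcases eq_or_ne i i0 with rfl | hi
    · rw [hC.norm _ (hv.1 _), h0]; ring
    · rw [hv.2 i0 i hi.symm, hz i hi]; ring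

lemma inA_neg {m : ℕ} {v : Fin m → M} {β : M} (h : InA v (-β)) : InA v β := by
  rcases h with ⟨i, h | h⟩ | ⟨i, j, hij, h⟩
  · exact Or.inl ⟨i, Or.inr (by rw [← h, neg_neg])⟩
  · exact Or.inl ⟨i, Or.inl (neg_injective h)⟩
  · exact Or.inr ⟨j, i, hij.symm, by rw [← neg_neg β, h]; abel⟩

theorem g_a (hE : G_EXT) : G_A := by
  intro M _ b C s m v hb hC hm hv hF hmax
  have key : ∀ β ∈ C, (∃ i, b β (v i) ≠ 0) → InA v β := by
    intro β hβ ⟨i0, hi0⟩
    by_cases h2 : ∃ i, b β (v i) = 2 * s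
    · obtain ⟨i, hi⟩ := h2
      exact Or.inl ⟨i, Or.inl (eq_of_two hb hC hβ (hv.1 i) hi)⟩
    by_cases h2' : ∃ i, b β (v i) = -(2 * s)
    · obtain ⟨i, hi⟩ := h2'
      exact Or.inl ⟨i, Or.inr (eq_neg_of_two hb hC hβ (hv.1 i) hi)⟩
    push Not at h2 h2'
    have h3 : ∀ i, b β (v i) = 0 ∨ b β (v i) = s ∨ b β (v i) = -s := by
      intro i
      rcases prod_cases hb hC hβ (hv.1 i) with h | h | h | h | h
      · exact Or.inl h
      · exact Or.inr (Or.inl h)
      · exact Or.inr (Or.inr h)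
      · exact absurd h (h2 i)
      · exact absurd h (h2' i)
    by_cases hp : ∃ i, b β (v i) = s
    · obtain ⟨i, hi⟩ := hp
      by_cases hn : ∃ j, b β (v j) = -s
      · obtain ⟨j, hj⟩ := hn
        have hij : i ≠ j := by
          rintro rfl
          have := hC.pos
          omega
        refine Or.inr ⟨i, j, hij, ?_⟩
        apply eq_of_two hb hC hβ (sub_mem hb hC (hv.1 i) (hv.1 j) (hv.2 i j hij))
        rw [hb.sub_right, hi, hj]; ring
      · push Not at hn
        exact (no_mixed hE hb hC hv hF hmax hβ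
          (fun l => (h3 l).imp_right fun h => h.resolve_right (hn l)) i hi).elim
    · push Not at hp
      have hi : b β (v i0) = -s := ((h3 i0).resolve_left hi0).resolve_left (hp i0)
      refine (no_mixed hE hb hC hv hF hmax (neg_mem hC hβ) (fun l => ?_) i0 ?_).elim
      · rw [hb.neg_left]
        rcases h3 l with h | h | h
        · left; omega
        · exact absurd h (hp l)
        · right; omega
      · rw [hb.neg_left]; omega
  have hD := hC.conn {α | α ∈ C ∧ InA v α} (fun α h => h.1)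
    ⟨v ⟨0, hm⟩, hv.1 _, Or.inl ⟨_, Or.inl rfl⟩⟩ (by
      intro α hα β hβ hn
      by_contra h0
      apply hn
      refine ⟨hβ, key β hβ ?_⟩
      by_contra hall
      push Not at hall
      apply h0
      rcases hα.2 with ⟨i, h | h⟩ | ⟨i, j, _, h⟩
      · rw [h, hb.symm, hall]
      · rw [h, hb.neg_left, hb.symm, hall]; rfl
      · rw [h, hb.sub_left, hb.symm (v i), hb.symm (v j), hall, hall]; rfl)
  intro α hα
  rw [← hD] at hα
  exact hα.2

end Pool.Agent.CON.H34

end
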